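import Pool.Agent.TH699.TS.ExtReuse

/-!
Refutations with extension variables.  For every `k`: extension variables which miss one of `k + 1`
blocks of variables are useless, whatever their number and the functions they stand for, for
refutations in which few lines are used more than once (in particular tree-like ones) and whose
lines are Boolean functions of `r` systems of linear equations modulo any numbers, while extension
variables for conjunctions of one variable from each block give tree-like refutations of linear
size.
-/

open Finset

namespace Pool.Agent.Results.MP_e81270_lc.BlockExtensions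

open Pool.Agent.H642R2.Dual Pool.Agent.TH699.TD Pool.Agent.TH699.TS

/-- For all `k ≥ 1` and `n ≥ 25` there is an unsatisfiable CNF formula `Φ` whose number `N` of
variables is between `n` and `C n`, where `C = 2^(3k+13)`, with at most `2^C n` clauses, each with
at most `C` literals, and a partition of its variables into `k + 1` blocks such that
* for every finite set `E` of extension variables, each of which stands for an arbitrary Boolean
  function of the variables outside some block, and all `r` and `s`: every dag-like semantic
  refutation of `Φ` with `T` lines from the clauses of `Φ` and all consequences of the definitions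
  of the extension variables, each line of which has at most two premises and is a Boolean function
  of `r` systems of linear equations in the variables and extension variables, each system modulo an
  arbitrary number, in which at most `s` lines, not counting axioms, are used more than once as
  premises, satisfies `T ≥ 2^(N/(C(r+1)) - s - 1)`;
* there is a tree-like refutation with at most `2^C n` nodes whose lines are systems of at most
  `|V| + |W| + 1` linear equations modulo 2 in the variables and at most `N` extension variables
  `w`, or negations of such systems, where `w` stands for the conjunction of the `k + 1` variables in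
  `D w`, one from each block. -/
theorem result (k n : ℕ) (hk : 1 ≤ k) (hn : 25 ≤ n) :
    ∃ (V : Type) (_ : Fintype V) (_ : DecidableEq V) (Φ : Finset (Clause V))
      (blk : V → Fin (k + 1)),
      n ≤ Fintype.card V ∧ Fintype.card V ≤ 2 ^ (3 * k + 13) * n ∧
      Φ.card ≤ 2 ^ 2 ^ (3 * k + 13) * n ∧ (∀ C ∈ Φ, C.card ≤ 2 ^ (3 * k + 13)) ∧
      (∀ x, ∃ C ∈ Φ, ¬ Sat C x) ∧
      (∀ (E : Type) (_ : Fintype E) (_ : DecidableEq E) (f : E → (V → Bool) → Bool),
        (∀ e, ∃ i, ∀ x y : V → Bool, (∀ v, blk v ≠ i → x v = y v) → f e x = f e y) →
        ∀ (r T : ℕ) (L : ℕ → Line (V ⊕ E)) (P : ℕ → Finset ℕ) (U : Finset ℕ),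
          IsDag (DefAx Φ f) T L P → (∀ i < T, (P i).card ≤ 2) →
          (∀ i < T, Combo r (ModLine 1) (L i)) →
          (∀ u, u ∉ U → ¬ DefAx Φ f (L u) →
            ∀ i < T, ∀ i' < T, u ∈ P i → u ∈ P i' → i = i') →
          (2 : ℝ) ^ (Fintype.card V / (2 ^ (3 * k + 13) * (r + 1)) - U.card - 1 : ℝ) ≤ T) ∧
      (∃ (W : Type) (_ : Fintype W) (_ : DecidableEq W) (D : W → Finset V),
        Fintype.card W ≤ Fintype.card V ∧ (∀ w i, ∃! v, v ∈ D w ∧ blk v = i) ∧
        ∃ t : Der (V ⊕ W), t.IsRefutation (ExtAx Φ D) ∧ t.All (Mod2Line 1) ∧
          nodes t ≤ 2 ^ 2 ^ (3 * k + 13) * n) := by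
  obtain ⟨V, i1, i2, Φ, blk, W, i3, i4, D, h1, h2, h3, h4, h5, h6, h7, -, h8, h9, -⟩ :=
    exists_ext_reuse hk hn
  exact ⟨V, i1, i2, Φ, blk, h1, h2, h3, h4, h5,
    fun E iE jE f hf r T L P U hD htwo hL hU => (h9 E iE jE f hf r T L P U hD htwo hU).1 hL,
    W, i3, i4, D, h6, h7, h8⟩

end Pool.Agent.Results.MP_e81270_lc.BlockExtensions
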