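import Pool.Agent.TH679.MW.Few
import Pool.Agent.TH679.MW.FewS
import Pool.Agent.TH708.Ips.Main

set_option autoImplicit false

/-!
# Algebraic refutations computed with few registers

The equation `∑ i j, z i j * x i * x j = β` has no solution with Boolean `x i`, `z i j` in a field of
characteristic zero, if `β` is not a small natural number.  Consider its linear algebraic refutations
(linear IPS: `f * (∑ i j, z i j * x i * x j - β) + ∑ v, h v * (v ^ 2 - v) = 1`) in which `f` is
computed, at Boolean points, by a program with `K` registers and `L` steps in which the two factors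
of a product never both depend on the same `x i` (the variables `z i j` are not restricted, and
arbitrary functions of `n ^ (1 - ε)` of the `x i` may be loaded).  If `K ≤ n ^ (1 / 2 - ε)`, then
`L > n ^ (c log log n)`; if, moreover, one factor of each product has read at most `n ^ (1 - ε)` of
the `x i` (for instance in branching programs), then `L > n ^ (c log n)`.  The hand-in
`NarrowCircuitRefutations` (with the same equation, whose lemmas are used) has this for width
`n ^ o(1)` only.
-/

namespace Pool.Agent.Results.MP_e81270_lc.FewRegisterRefutations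

open Finset Pool.Agent.TH679.MW Pool.Agent.TH708.Ari Pool.Agent.TH708.Ips

/-- One factor of each product has read at most `|W| ^ (1 - ε)` of the variables `x i`, `i ∈ W`. -/
def Unbalanced {F : Type} {n K : ℕ} (P : ℕ → Instr F (Fin n ⊕ (Fin n × Fin n)) F K) (L : ℕ)
    (ε : ℝ) (W : Finset (Fin n)) : Prop :=
  ∀ t < L, ∀ d a b, P t = .mul d a b →
    ((W.filter fun i => Sum.inl i ∈ vars P t a).card : ℝ) ≤ (W.card : ℝ) ^ (1 - ε) ∨
    ((W.filter fun i => Sum.inl i ∈ vars P t b).card : ℝ) ≤ (W.card : ℝ) ^ (1 - ε)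

theorem bound (ε : ℝ) (hε : 0 < ε) (hε1 : ε ≤ 1 / 2) : ∃ n₀ : ℕ,
    ∀ (F : Type) [Field F] (β : F) (n K L : ℕ) (P : ℕ → Instr F (Fin n ⊕ (Fin n × Fin n)) F K)
      (out : Fin K) (W : Finset (Fin n)), (W.card.factorial : F) ≠ 0 →
      Inverts β (fun z => run P z L out) → n₀ ≤ W.card →
      Multilinear P L (fun p => ∃ i ∈ W, p = Sum.inl i) →
      (∀ t < L, ∀ d S f, P t = .load d S f →
        ((W.filter fun i => Sum.inl i ∈ S).card : ℝ) ≤ (W.card : ℝ) ^ (1 - ε)) →
      (K : ℝ) ≤ (W.card : ℝ) ^ (1 / 2 - ε) →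
      (W.card : ℝ) ^ (ε / 16 * Real.log (Real.log W.card)) < L ∧
      (Unbalanced P L ε W → (W.card : ℝ) ^ (ε ^ 2 / 16 * Real.log W.card) < L) := by
  obtain ⟨n₀, h⟩ := few ε hε hε1
  obtain ⟨n₁, hS⟩ := fewS ε hε hε1
  refine ⟨n₀ + n₁, fun F _ β n K L P out W hfac hI hW hm hleaf hK => ?_⟩
  have hfull : ∀ W' ⊆ W, ∀ Y : Finset ↥W', 2 * Y.card = W'.card →
      ∃ ρ : Fin n ⊕ (Fin n × Fin n) → F, ∀ r,
        RkLe Y r (fun x => run P (point (fun i : ↥W' => Sum.inl i.1) ρ x) L out) →
          2 ^ Y.card ≤ r := by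
    intro W' hW' Y hY
    refine full_of_count (fun z => run P z L out) _ hI.isCount W' (fun s hs => ?_) Y hY
    have hTn : W.card ≤ n := by
      have := card_le_univ W
      rwa [Fintype.card_fin] at this
    have hWW := card_le_card hW'
    refine hI.diff s (by omega) ?_
    have hdvd : s.factorial ∣ W.card.factorial := Nat.factorial_dvd_factorial (by omega)
    obtain ⟨q, hq⟩ := hdvd
    intro h0
    apply hfac
    rw [hq]
    push_cast
    rw [h0, zero_mul]
  exact ⟨h F (Fin n ⊕ (Fin n × Fin n)) n K L Sum.inl P out W Sum.inl_injective hfull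
      (by omega) hm hleaf hK,
    fun hb => hS F (Fin n ⊕ (Fin n × Fin n)) n K L Sum.inl P out W Sum.inl_injective hfull
      (by omega) hm hleaf hb hK⟩

/-- **Refutations with few registers are long.** (1) `f` inverts the form at the Boolean points.
(2) In characteristic `0`, for all `x i`. -/
theorem result (ε : ℝ) (hε : 0 < ε) (hε1 : ε ≤ 1 / 2) : ∃ n₀ : ℕ,
    (∀ (F : Type) [Field F] (β : F) (n K L : ℕ) (P : ℕ → Instr F (Fin n ⊕ (Fin n × Fin n)) F K)
      (out : Fin K) (W : Finset (Fin n)), (W.card.factorial : F) ≠ 0 →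
      Inverts β (fun z => run P z L out) → n₀ ≤ W.card →
      Multilinear P L (fun p => ∃ i ∈ W, p = Sum.inl i) →
      (∀ t < L, ∀ d S f, P t = .load d S f →
        ((W.filter fun i => Sum.inl i ∈ S).card : ℝ) ≤ (W.card : ℝ) ^ (1 - ε)) →
      (K : ℝ) ≤ (W.card : ℝ) ^ (1 / 2 - ε) →
      (W.card : ℝ) ^ (ε / 16 * Real.log (Real.log W.card)) < L ∧
      (Unbalanced P L ε W → (W.card : ℝ) ^ (ε ^ 2 / 16 * Real.log W.card) < L)) ∧
    (∀ (F : Type) [Field F] [CharZero F] (β : F) (n K L : ℕ)
      (P : ℕ → Instr F (Fin n ⊕ (Fin n × Fin n)) F K) (out : Fin K)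
      (f : MvPolynomial (Fin n ⊕ (Fin n × Fin n)) F)
      (h : Fin n ⊕ (Fin n × Fin n) → MvPolynomial (Fin n ⊕ (Fin n × Fin n)) F),
      Refutes (form n β) f h → (∀ p, (∀ v, p v = 0 ∨ p v = 1) →
        run P p L out = MvPolynomial.eval p f) → n₀ ≤ n →
      Multilinear P L (fun p => ∃ i, p = Sum.inl i) →
      (∀ t < L, ∀ d S g, P t = .load d S g →
        ((univ.filter fun i : Fin n => Sum.inl i ∈ S).card : ℝ) ≤ (n : ℝ) ^ (1 - ε)) →
      (K : ℝ) ≤ (n : ℝ) ^ (1 / 2 - ε) →
      (n : ℝ) ^ (ε / 16 * Real.log (Real.log n)) < L ∧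
      (Unbalanced P L ε univ → (n : ℝ) ^ (ε ^ 2 / 16 * Real.log n) < L)) := by
  obtain ⟨n₀, hb⟩ := bound ε hε hε1
  refine ⟨n₀, hb, ?_⟩
  intro F _ _ β n K L P out f h hR hf hn hm hl hK
  have h1 := hb F β n K L P out univ (by exact_mod_cast Nat.factorial_ne_zero _)
    (hR.inverts hf) (by rw [card_univ, Fintype.card_fin]; exact hn)
    (by
      intro t ht d a b hP i hi
      refine hm t ht d a b hP i ?_
      obtain ⟨j, _, rfl⟩ := hi
      exact ⟨j, rfl⟩)
  rw [card_univ, Fintype.card_fin] at h1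
  exact h1 hl hK

end Pool.Agent.Results.MP_e81270_lc.FewRegisterRefutations
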