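import Pool.Agent.TH708.Ips.Main

set_option autoImplicit false

/-!
# Algebraic refutations by narrow circuits

The equation `∑ i j, z i j * x i * x j = β` has no solution with Boolean `x i`, `z i j` in a field of
characteristic zero, if `β` is not a small natural number.  Consider its linear algebraic refutations
(linear IPS: `f * (∑ i j, z i j * x i * x j - β) + ∑ v, h v * (v ^ 2 - v) = 1`) in which `f` is
computed, at Boolean points, by an arithmetic circuit with `S` nodes, with fan-in two, whose sum and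
product gates lie in layers of at most `w` gates and whose formal degree in every `x i` is at most
one (the variables `z i j` are not restricted).  Then
`(log n)² ≤ 2^40 (log w + 1) (log S + 1)`: there are none of polynomial size and width `n^{o(1)}`.
-/

namespace Pool.Agent.Results.MP_e81270_lc.NarrowCircuitRefutations

open Finset
open Pool.Agent.TH708.Ari
open Pool.Agent.TH708.Ips

theorem bound {K : Type} [Field K] (β : K) {n : ℕ} (C : Ckt K (Fin n ⊕ (Fin n × Fin n)))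
    (W : Finset (Fin n)) (w : ℕ) (hfac : (W.card.factorial : K) ≠ 0)
    (hd : ∀ i ∈ W, C.deg (Sum.inl i) ≤ 1) (hw : C.Width w) (hI : Inverts β C.eval) :
    (Nat.log 2 W.card) ^ 2 ≤ 2 ^ 40 * ((Nat.log 2 w + 1) * (Nat.log 2 C.size + 1)) := by
  refine narrow_ckt C _ hI.isCount W (fun s hs => ?_) hd w hw
  have hTn : W.card ≤ n := by
    have := card_le_univ W
    rwa [Fintype.card_fin] at this
  refine hI.diff s (by omega) ?_
  have hdvd : s.factorial ∣ W.card.factorial := Nat.factorial_dvd_factorial (by omega)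
  obtain ⟨q, hq⟩ := hdvd
  intro h0
  apply hfac
  rw [hq]
  push_cast
  rw [h0, zero_mul]

/-- The numerical part. -/
theorem num (c m N s : ℕ) (hm : m = 4 * c + 50) (hN : N = 2 ^ m) (wd : ℕ)
    (hwd : wd ≤ N ^ c + c) (hs : s ≤ (2 ^ N) ^ c + c)
    (hb : N ^ 2 ≤ 2 ^ 40 * ((Nat.log 2 wd + 1) * (Nat.log 2 s + 1))) : False := by
  have hc : c < 2 ^ c := Nat.lt_two_pow_self
  have hadd : ∀ x : ℕ, 2 ^ x + c ≤ 2 ^ (x + c) := by
    intro x
    rw [pow_add]
    have hx : 1 ≤ 2 ^ x := Nat.one_le_two_pow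
    nlinarith
  have hw : Nat.log 2 wd ≤ m * c + c := by
    have : wd ≤ 2 ^ (m * c + c) := by
      refine hwd.trans ?_
      rw [hN, ← pow_mul]
      exact hadd _
    calc Nat.log 2 wd ≤ Nat.log 2 (2 ^ (m * c + c)) := Nat.log_mono_right this
      _ = _ := Nat.log_pow (by norm_num) _
  have hs' : Nat.log 2 s ≤ N * c + c := by
    have : s ≤ 2 ^ (N * c + c) := by
      refine hs.trans ?_
      rw [← pow_mul]
      exact hadd _
    calc Nat.log 2 s ≤ Nat.log 2 (2 ^ (N * c + c)) := Nat.log_mono_right this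
      _ = _ := Nat.log_pow (by norm_num) _
  have h5 : N ^ 2 ≤ 2 ^ 40 * ((m * c + c + 1) * (N * c + c + 1)) :=
    hb.trans (Nat.mul_le_mul_left _ (Nat.mul_le_mul (by omega) (by omega)))
  have hN1 : 1 ≤ N := by rw [hN]; exact Nat.one_le_two_pow
  have h6 : N * c + c + 1 ≤ N * (2 * c + 1) := by nlinarith
  have h7 : N * N ≤ N * (2 ^ 40 * ((m * c + c + 1) * (2 * c + 1))) := by
    calc N * N = N ^ 2 := by ring
      _ ≤ 2 ^ 40 * ((m * c + c + 1) * (N * c + c + 1)) := h5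
      _ ≤ 2 ^ 40 * ((m * c + c + 1) * (N * (2 * c + 1))) :=
          Nat.mul_le_mul_left _ (Nat.mul_le_mul_left _ h6)
      _ = _ := by ring
  have h8 : N ≤ 2 ^ 40 * ((m * c + c + 1) * (2 * c + 1)) := Nat.le_of_mul_le_mul_left h7 hN1
  have h9 : m * c + c + 1 ≤ (m + 1) * (c + 1) := by nlinarith
  have h10 : 2 * c + 1 ≤ 2 * (c + 1) := by omega
  have h11 : c + 1 ≤ 2 ^ c := hc
  have h12 : m + 1 ≤ 2 ^ (2 * c + 6) := by
    rw [hm, pow_add, pow_mul]
    have : 4 ^ c = (2 ^ 2) ^ c := by norm_num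
    have h13 : 1 + c * 3 ≤ 4 ^ c := by
      have := one_add_mul_le_pow (a := (3 : ℤ)) (by norm_num) c
      have h14 : (1 : ℤ) + c * 3 ≤ 4 ^ c := by norm_num at this; exact this
      exact_mod_cast h14
    rw [← this]
    omega
  have h13 : N ≤ 2 ^ (4 * c + 47) := by
    calc N ≤ 2 ^ 40 * ((m * c + c + 1) * (2 * c + 1)) := h8
      _ ≤ 2 ^ 40 * (((m + 1) * (c + 1)) * (2 * (c + 1))) :=
          Nat.mul_le_mul_left _ (Nat.mul_le_mul h9 h10)
      _ ≤ 2 ^ 40 * ((2 ^ (2 * c + 6) * 2 ^ c) * (2 * 2 ^ c)) :=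
          Nat.mul_le_mul_left _ (Nat.mul_le_mul (Nat.mul_le_mul h12 h11)
            (Nat.mul_le_mul_left _ h11))
      _ = 2 ^ (4 * c + 47) := by
          have e1 : 2 ^ (4 * c + 47) = 2 ^ 40 * ((2 ^ (2 * c + 6) * 2 ^ c) * (2 ^ 1 * 2 ^ c)) := by
            rw [← pow_add, ← pow_add, ← pow_add, ← pow_add]
            congr 1
            ring
          rw [e1, pow_one]
  rw [hN, hm] at h13
  have := (Nat.pow_le_pow_iff_right (by norm_num : 1 < 2)).1 h13
  omega

theorem result :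
    (∀ (K : Type) [Field K] (β : K) (n : ℕ) (C : Ckt K (Fin n ⊕ (Fin n × Fin n)))
      (W : Finset (Fin n)) (w : ℕ),
      (W.card.factorial : K) ≠ 0 → (∀ i ∈ W, C.deg (Sum.inl i) ≤ 1) → C.Width w →
      Inverts β C.eval →
        (Nat.log 2 W.card) ^ 2 ≤ 2 ^ 40 * ((Nat.log 2 w + 1) * (Nat.log 2 C.size + 1))) ∧
    ∀ (K : Type) [Field K] [CharZero K] (β : ℕ → K), ¬ ∃ c : ℕ, ∀ n : ℕ,
      ∃ (C : Ckt K (Fin n ⊕ (Fin n × Fin n))) (f : MvPolynomial (Fin n ⊕ (Fin n × Fin n)) K)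
        (h : Fin n ⊕ (Fin n × Fin n) → MvPolynomial (Fin n ⊕ (Fin n × Fin n)) K),
        Refutes (form n (β n)) f h ∧
        (∀ p, (∀ v, p v = 0 ∨ p v = 1) → C.eval p = MvPolynomial.eval p f) ∧
        (∀ i : Fin n, C.deg (Sum.inl i) ≤ 1) ∧ C.size ≤ n ^ c + c ∧
        C.Width (Nat.log 2 n ^ c + c) := by
  refine ⟨fun K _ β n C W w h1 h2 h3 h4 => bound β C W w h1 h2 h3 h4, ?_⟩
  rintro K _ _ β ⟨c, H⟩
  obtain ⟨m, hm⟩ : ∃ m, m = 4 * c + 50 := ⟨_, rfl⟩
  obtain ⟨N, hN⟩ : ∃ N, N = 2 ^ m := ⟨_, rfl⟩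
  obtain ⟨C, f, h, g1, g2, g3, g4, g5⟩ := H (2 ^ N)
  have hlog : Nat.log 2 (2 ^ N) = N := Nat.log_pow (by norm_num) N
  rw [hlog] at g5
  have hb := bound (β (2 ^ N)) C univ _ (by exact_mod_cast Nat.factorial_ne_zero _)
    (fun i _ => g3 i) g5 (g1.inverts g2)
  rw [Finset.card_univ, Fintype.card_fin, hlog] at hb
  exact num c m N C.size hm hN (N ^ c + c) le_rfl g4 hb

end Pool.Agent.Results.MP_e81270_lc.NarrowCircuitRefutations
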