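import Pool.Agent.TH699.TS.ExtReuse

/-!
Refutations in which few lines are used more than once (in particular tree-like ones) and whose
lines are Boolean functions of `r` linear inequalities in extension variables which miss one of
`k + 1` blocks of variables: lower bounds `2^Ω(N / ((r + 1) log (N + |E|)))` for the length.
-/

open Finset

namespace Pool.Agent.Results.MP_e81270_lc.ThresholdExtensions

open Pool.Agent.H642R2.Dual Pool.Agent.TH699.TD Pool.Agent.TH699.TS

/-- For all `k ≥ 1` and `n ≥ 25` there is an unsatisfiable CNF formula `Φ` whose number `N` of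
variables is between `n` and `C n`, where `C = 2^(4k+13)`, with at most `2^C n` clauses, each with
at most `C` literals, and a partition of its variables into `k + 1` blocks such that
* for every finite set `E` of extension variables, each of which stands for an arbitrary Boolean
  function of the variables outside some block, and all `r` and `s`: every dag-like semantic
  refutation of `Φ` with `T` lines from the clauses of `Φ` and all consequences of the definitions
  of the extension variables, each line of which has at most two premises and is a Boolean function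
  of `r` linear inequalities with real coefficients in the variables and extension variables, or
  systems of linear equations in them modulo some numbers, in which at most `s` lines, not counting
  axioms, are used more than once as premises, satisfies
  `T ≥ 2^(N/(C log₂ (N + |E|) (r+1)) - s - 1)`;
* there is a tree-like refutation with at most `2^C n` nodes whose lines are systems of linear
  equations modulo 2 in the variables and at most `N` extension variables, or negations of such
  systems, where the extension variable `w` stands for the conjunction of the `k + 1` variables in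
  `D w`, one from each block. -/
theorem result (k n : ℕ) (hk : 1 ≤ k) (hn : 25 ≤ n) :
    ∃ (V : Type) (_ : Fintype V) (_ : DecidableEq V) (Φ : Finset (Clause V))
      (blk : V → Fin (k + 1)),
      n ≤ Fintype.card V ∧ Fintype.card V ≤ 2 ^ (4 * k + 13) * n ∧
      Φ.card ≤ 2 ^ 2 ^ (4 * k + 13) * n ∧ (∀ C ∈ Φ, C.card ≤ 2 ^ (4 * k + 13)) ∧
      (∀ x, ∃ C ∈ Φ, ¬ Sat C x) ∧
      (∀ (E : Type) (_ : Fintype E) (_ : DecidableEq E) (f : E → (V → Bool) → Bool),
        (∀ e, ∃ i, ∀ x y : V → Bool, (∀ v, blk v ≠ i → x v = y v) → f e x = f e y) →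
        ∀ (r T : ℕ) (L : ℕ → Line (V ⊕ E)) (P : ℕ → Finset ℕ) (U : Finset ℕ),
          IsDag (DefAx Φ f) T L P → (∀ i < T, (P i).card ≤ 2) →
          (∀ i < T, Combo r (fun L => PolyLine 1 L ∨ ModLine 1 L) (L i)) →
          (∀ u, u ∉ U → ¬ DefAx Φ f (L u) →
            ∀ i < T, ∀ i' < T, u ∈ P i → u ∈ P i' → i = i') →
          (2 : ℝ) ^ (Fintype.card V / (2 ^ (4 * k + 13) *
            Real.logb 2 (Fintype.card V + Fintype.card E) * (r + 1)) - U.card - 1 : ℝ) ≤ T) ∧
      (∃ (W : Type) (_ : Fintype W) (_ : DecidableEq W) (D : W → Finset V),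
        Fintype.card W ≤ Fintype.card V ∧ (∀ w i, ∃! v, v ∈ D w ∧ blk v = i) ∧
        ∃ t : Der (V ⊕ W), t.IsRefutation (ExtAx Φ D) ∧ t.All (Mod2Line 1) ∧
          nodes t ≤ 2 ^ 2 ^ (4 * k + 13) * n) := by
  obtain ⟨V, i1, i2, Φ, blk, W, i3, i4, D, h1, h2, h3, h4, h5, h6, h7, -, ⟨t, h8, h8', h8''⟩,
    h9, -⟩ := exists_ext_reuse hk hn
  have e : 2 ^ (3 * k + 13) ≤ 2 ^ (4 * k + 13) := Nat.pow_le_pow_right (by norm_num) (by omega)
  have e' : 2 ^ 2 ^ (3 * k + 13) * n ≤ 2 ^ 2 ^ (4 * k + 13) * n :=
    Nat.mul_le_mul_right _ (Nat.pow_le_pow_right (by norm_num) e)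
  exact ⟨V, i1, i2, Φ, blk, h1, h2.trans (Nat.mul_le_mul_right _ e), h3.trans e',
    fun C hC => (h4 C hC).trans e, h5,
    fun E iE jE f hf r T L P U hD htwo hL hU => (h9 E iE jE f hf r T L P U hD htwo hU).2 hL,
    W, i3, i4, D, h6, h7, t, h8, h8', h8''.trans e'⟩

end Pool.Agent.Results.MP_e81270_lc.ThresholdExtensions
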